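import Pool.Agent.Helper71.UQ.Goals

/-! Packet UQ-GEO1: the pairs of one scale in the norm with index one. -/

set_option autoImplicit false

namespace Pool.Agent.Helper39.UQ.PkGEO1

open Pool.Agent.Helper39.Net Pool.Agent.Helper71.UQ

/-- the sign -/
def eps (b : Bool) : ℝ := if b then 1 else -1

theorem coord (e x y u : ℝ) (he : e = 1 ∨ e = -1) (hu : 0 < u) (hxy : e * x ≤ e * y) (v w : ℤ)
    (h1 : 2 * ⌊e * x / u⌋ ≤ v) (h2 : v ≤ w) (h3 : w ≤ 2 * ⌊e * y / u⌋ + 1) :
    |x - e * (v * u / 2)| + |e * (v * u / 2) - e * (w * u / 2)| + |e * (w * u / 2) - y| ≤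
      |x - y| + 3 * u := by
  have a1 : e * x / u - 1 < (⌊e * x / u⌋ : ℝ) := Int.sub_one_lt_floor _
  have a2 : (⌊e * y / u⌋ : ℝ) ≤ e * y / u := Int.floor_le _
  have b1 : (2 : ℝ) * ⌊e * x / u⌋ ≤ v := by exact_mod_cast h1
  have b2 : (v : ℝ) ≤ w := by exact_mod_cast h2
  have b3 : (w : ℝ) ≤ 2 * ⌊e * y / u⌋ + 1 := by exact_mod_cast h3
  have c1 : e * x / u * u = e * x := by field_simp
  have c2 : e * y / u * u = e * y := by field_simp
  -- `p = v u / 2`, `p' = w u / 2`
  have d1 : e * x - u ≤ v * u / 2 := by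
    have : (e * x / u - 1) * u ≤ (v / 2) * u := by
      apply mul_le_mul_of_nonneg_right _ hu.le
      linarith
    nlinarith
  have d2 : (v : ℝ) * u / 2 ≤ w * u / 2 := by
    have := mul_le_mul_of_nonneg_right b2 hu.le
    linarith
  have d3 : (w : ℝ) * u / 2 ≤ e * y + u / 2 := by
    have : ((w : ℝ) / 2) * u ≤ (e * y / u + 1 / 2) * u := by
      apply mul_le_mul_of_nonneg_right _ hu.le
      linarith
    nlinarith
  rcases he with he | he <;> subst he
  · have k1 : |x - 1 * (v * u / 2)| ≤ (v * u / 2 - x) + 2 * u := by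
      rw [abs_le]; constructor <;> linarith
    have k2 : |1 * (v * u / 2) - 1 * (w * u / 2)| ≤ w * u / 2 - v * u / 2 := by
      rw [abs_le]; constructor <;> linarith
    have k3 : |1 * (w * u / 2) - y| ≤ (y - w * u / 2) + u := by
      rw [abs_le]; constructor <;> linarith
    have k4 : y - x ≤ |x - y| := by rw [abs_sub_comm]; exact le_abs_self _
    linarith
  · have k1 : |x - (-1) * (v * u / 2)| ≤ (v * u / 2 + x) + 2 * u := by
      rw [abs_le]; constructor <;> linarith
    have k2 : |(-1) * (v * u / 2) - (-1) * (w * u / 2)| ≤ w * u / 2 - v * u / 2 := by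
      rw [abs_le]; constructor <;> linarith
    have k3 : |(-1) * (w * u / 2) - y| ≤ (-y - w * u / 2) + u := by
      rw [abs_le]; constructor <;> linarith
    have k4 : x - y ≤ |x - y| := le_abs_self _
    linarith

theorem thm (h : G_TYP) : G_GEO1 := by
  intro d q T1 hd hnet r hr Z
  set u : ℝ := r / (2 * d) with hu
  have hd0 : (0 : ℝ) < d := by exact_mod_cast hd
  have hu0 : 0 < u := by positivity
  have hdu : (d : ℝ) * u = r / 2 := by rw [hu]; field_simp
  refine h d T1 (2 ^ d) (RJ (q + 8)) hnet (Fin d → ℝ) (Fin d → Bool) dOne dOne_symm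
    (fun _ => Finset.univ) (fun θ x i => 2 * ⌊eps (θ i) * x i / u⌋)
    (fun θ y i => 2 * ⌊eps (θ i) * y i / u⌋ + 1)
    (fun θ v i => eps (θ i) * (v i * u / 2)) (fun θ v i => eps (θ i) * (v i * u / 2)) (3 * r)
    (fun x y => dOne x y ≤ 2 ^ (q + 3) * r) ?_ ?_ Z
  · intro x
    simp
  · intro x y hD
    refine ⟨fun i => decide (x i ≤ y i), Finset.mem_univ _, Finset.mem_univ _, Or.inl ⟨?_, ?_⟩⟩
    · have hsg : ∀ i, eps (decide (x i ≤ y i)) * (y i - x i) = |x i - y i| := by
        intro i
        by_cases hxy : x i ≤ y i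
        · simp only [eps, hxy, decide_true, if_true, one_mul]
          rw [abs_sub_comm, abs_of_nonneg (by linarith)]
        · simp only [eps, hxy, decide_false, Bool.false_eq_true, if_false]
          rw [abs_of_nonneg (by linarith)]
          ring
      have hle : ∀ i, eps (decide (x i ≤ y i)) * x i ≤ eps (decide (x i ≤ y i)) * y i := by
        intro i
        have := hsg i
        have h0 := abs_nonneg (x i - y i)
        nlinarith
      constructor
      · intro i
        have : ⌊eps (decide (x i ≤ y i)) * x i / u⌋ ≤ ⌊eps (decide (x i ≤ y i)) * y i / u⌋ :=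
          Int.floor_le_floor (div_le_div_of_nonneg_right (hle i) hu0.le)
        show 2 * ⌊eps (decide (x i ≤ y i)) * x i / u⌋ <
          2 * ⌊eps (decide (x i ≤ y i)) * y i / u⌋ + 1
        omega
      · have key : (((4 * ∑ i : Fin d, ((2 * ⌊eps (decide (x i ≤ y i)) * y i / u⌋ + 1) -
            2 * ⌊eps (decide (x i ≤ y i)) * x i / u⌋) : ℤ)) : ℝ) ≤ 2 ^ (q + 8) * d := by
          push_cast
          have e1 : ∀ i : Fin d, ((2 * (⌊eps (decide (x i ≤ y i)) * y i / u⌋ : ℝ) + 1) -
              2 * (⌊eps (decide (x i ≤ y i)) * x i / u⌋ : ℝ)) ≤ 2 * (|x i - y i| / u) + 3 := by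
            intro i
            have a1 : eps (decide (x i ≤ y i)) * x i / u - 1 <
                (⌊eps (decide (x i ≤ y i)) * x i / u⌋ : ℝ) := Int.sub_one_lt_floor _
            have a2 : (⌊eps (decide (x i ≤ y i)) * y i / u⌋ : ℝ) ≤
                eps (decide (x i ≤ y i)) * y i / u := Int.floor_le _
            rw [← hsg i, mul_sub, sub_div]
            linarith
          have e2 := Finset.sum_le_sum (fun i (_ : i ∈ Finset.univ) => e1 i)
          have e3 : ∑ i : Fin d, (2 * (|x i - y i| / u) + 3) = 2 * (dOne x y / u) + 3 * d := by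
            rw [Finset.sum_add_distrib, ← Finset.mul_sum, ← Finset.sum_div]
            simp only [dOne, Finset.sum_const, Finset.card_univ, Fintype.card_fin, nsmul_eq_mul]
            ring
          rw [e3] at e2
          have e4 : dOne x y / u ≤ 2 ^ (q + 3) * (2 * d) := by
            rw [div_le_iff₀ hu0]
            have : 2 ^ (q + 3) * (2 * (d : ℝ)) * u = 2 ^ (q + 3) * r := by
              rw [mul_assoc, mul_assoc, hdu]; ring
            rw [this]
            exact hD
          have e5 : (12 : ℝ) ≤ 2 ^ (q + 7) := by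
            calc (12 : ℝ) ≤ 2 ^ 7 := by norm_num
              _ ≤ 2 ^ (q + 7) := pow_le_pow_right₀ (by norm_num) (by omega)
          have e6 : (2 : ℝ) ^ (q + 8) = 2 ^ (q + 7) * 2 := by ring
          have e7 : (2 : ℝ) ^ (q + 7) = 2 ^ (q + 3) * 16 := by ring
          have e8 : (12 : ℝ) * d ≤ 2 ^ (q + 7) * d := mul_le_mul_of_nonneg_right e5 hd0.le
          have e9 : (2 : ℝ) ^ (q + 8) * d = 2 ^ (q + 3) * d * 16 + 2 ^ (q + 7) * d := by
            rw [e6, e7]; ring
          rw [e9]
          linarith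
        have key2 : ((2 ^ (q + 8) * (d : ℤ) : ℤ) : ℝ) = 2 ^ (q + 8) * d := by push_cast; ring
        rw [← key2] at key
        exact_mod_cast key
    · intro v w hvw
      have hle : ∀ i, eps (decide (x i ≤ y i)) * x i ≤ eps (decide (x i ≤ y i)) * y i := by
        intro i
        by_cases hxy : x i ≤ y i
        · simp only [eps, hxy, decide_true, if_true, one_mul]
        · simp only [eps, hxy, decide_false, Bool.false_eq_true, if_false]
          linarith
      have hpm : ∀ b : Bool, eps b = 1 ∨ eps b = -1 := by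
        intro b
        cases b <;> simp [eps]
      unfold dOne
      rw [← Finset.sum_add_distrib, ← Finset.sum_add_distrib]
      have e1 : ∀ i ∈ (Finset.univ : Finset (Fin d)), _ := fun i _ =>
        coord (eps (decide (x i ≤ y i))) (x i) (y i) u (hpm _) hu0 (hle i) (v i) (w i)
          (hvw i).1 (hvw i).2.1 (hvw i).2.2
      refine (Finset.sum_le_sum e1).trans ?_
      rw [Finset.sum_add_distrib, Finset.sum_const, Finset.card_univ, Fintype.card_fin,
        nsmul_eq_mul]
      have : (d : ℝ) * (3 * u) = 3 * (r / 2) := by rw [← hdu]; ring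
      rw [this]
      linarith

end Pool.Agent.Helper39.UQ.PkGEO1
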